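import Pool.Agent.Y776.Cv.Fix2
import Pool.Agent.Y776.Cv.Pad

/-!
# The weak relative conjecture at the points of arbitrary analytic curves

`G = 𝔾ₘ^s × ∏ E_c^(r_c)`, `E_c = ℂ / Λ_c` pairwise non-isogenous elliptic curves over `ℂ`, `r = ∑ r_c`. An analytic
curve in `Lie G` is given by analytic functions `l_1, …, l_s, u_1, …, u_r` on a connected open set `U`, the `i`-th
elliptic curve being the one with lattice `Λ (ty i)`. The components of the point `x(z)` of the curve and of
`exp_G(x(z))` are (up to `℘'(u_i)`, which is algebraic over the others and the constants `g₂, g₃`) the numbers `l_k(z)`,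
`exp(l_k(z))`, `u_i(z)`, `℘(u_i(z))`. We suppose that the curve `exp_G(x(z))` is not contained in a translate of a proper
algebraic subgroup of `G`. No other condition is imposed on the functions `l_k`, `u_i` and on the curves `E_c`.

The conjecture says that the transcendence degree of `F(x, exp_G(x))` is at least `d(exp_G(x)) = s + r` in general,
for the field `F` of the periods of `G`, and the stronger relative conjecture gives `s + 2 r` together with the numbers
`ζ(u_i)`. We show that `s + r` fixed numbers among the `2 s + 2 r` components together with `r` further numbers do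
not satisfy any approximate relation of bounded degree and of height `T^A` for all `z` of height at most `T` in all
number fields of degree at most `m`, with the exception of `C T^ε` points; and for `n` different groups and curves, that
the `∑ (s_j + 2 r_j)` numbers have no such relation with the exception of `C T^ε N^(n-1)` tuples. The coefficients of the
relations are combinations of arbitrary complex numbers `ξ_1, …, ξ_g`, for instance of the monomials in the periods.
-/

set_option autoImplicit false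

open NumberField
open scoped PeriodPair

namespace Pool.Agent.Results.MP_4aec10_nt.AnalyticCurves

/-- The Weierstrass zeta function `ζ(z) = ∑ (1/(z-l) + 1/l + z/l²)`, the sum over the lattice (the summand of `l = 0` is
`1/z`, since `1/0 = 0` in Lean). -/
noncomputable def ζ (L : PeriodPair) (z : ℂ) : ℂ :=
  ∑' l : L.lattice, (1 / (z - l) + 1 / l + z / l ^ 2)

/-- An analytic curve `(l, u)` in the Lie algebra of `𝔾ₘ^s × ∏ ℂ / Λ (ty i)`. -/
structure Curve (U : Set ℂ) {q r s : ℕ} (Λ : Fin q → PeriodPair) (ty : Fin r → Fin q) (u : Fin r → ℂ → ℂ)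
    (l : Fin s → ℂ → ℂ) : Prop where
  isOpen : IsOpen U
  isPreconnected : IsPreconnected U
  nonempty : U.Nonempty
  /-- the group is not trivial -/
  pos : 0 < s + r
  /-- the elliptic curves are not isogenous -/
  nonisogenous : ∀ c c', c ≠ c' → ∀ a : ℂ, (∀ w ∈ (Λ c).lattice, a * w ∈ (Λ c').lattice) → a = 0
  /-- the functions are analytic and the points of the elliptic curves are not zero -/
  analytic_u : ∀ i, AnalyticOnNhd ℂ (u i) U
  u_notMem : ∀ i, ∀ z ∈ U, u i z ∉ (Λ (ty i)).lattice
  analytic_l : ∀ k, AnalyticOnNhd ℂ (l k) U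
  /-- no nontrivial combination, with multipliers in `End(ℂ / Λ_c)`, of the `u_i` with `ty i = c` is constant -/
  independent_u : ∀ (c : Fin q) (a : Fin r → ℂ) (b : ℂ), (∀ i, ∀ w ∈ (Λ c).lattice, a i * w ∈ (Λ c).lattice) →
    (∀ i, ty i ≠ c → a i = 0) → (∀ z ∈ U, ∑ i, a i * u i z = b) → a = 0
  /-- no nontrivial combination with integral coefficients of the `l_k` is constant -/
  independent_l : ∀ (m : Fin s → ℤ) (b : ℂ), (∀ z ∈ U, ∑ k, (m k : ℂ) * l k z = b) → m = 0

/-- The names of the functions `l_k`, `exp(l_k)`, `u_i`, `℘(u_i)`, `ζ(u_i)`. -/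
inductive Name (r s : ℕ) : Type
  | l : Fin s → Name r s
  | expl : Fin s → Name r s
  | u : Fin r → Name r s
  | wp : Fin r → Name r s
  | zeta : Fin r → Name r s

/-- The values of the functions at the point `z`. -/
noncomputable def value {q r s : ℕ} (Λ : Fin q → PeriodPair) (ty : Fin r → Fin q) (u : Fin r → ℂ → ℂ)
    (l : Fin s → ℂ → ℂ) (z : ℂ) : Name r s → ℂ
  | Name.l k => l k z
  | Name.expl k => Complex.exp (l k z)
  | Name.u i => u i z
  | Name.wp i => ℘[Λ (ty i)] (u i z)
  | Name.zeta i => ζ (Λ (ty i)) (u i z)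

/-- The elements of the number field `F` with image in `K` which are quotients of two integers of `F` all of whose
conjugates have absolute value at most `T`. -/
def Points (F : Type) [Field F] [NumberField F] (ι : F →+* ℂ) (K : Set ℂ) (T : ℝ) : Set F :=
  {x | ι x ∈ K ∧ ∃ a b : 𝓞 F, b ≠ 0 ∧ (∀ φ : F →+* ℂ, ‖φ a‖ ≤ T ∧ ‖φ b‖ ≤ T) ∧ x = a / b}

/-- The `n`-tuples `x` of points of `F` for which there is a polynomial `P` of degree at most `d` in each variable, with
coefficients of the form `∑ ξ_i ι(c_i)`, where the `c_i` are integers of `F` all of whose conjugates have absolute value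
at most `T ^ A`, such that the value of `P` at the numbers `v j (ι (x j)) i` is at most `T ^ (-B)` times the absolute
value of some nonzero coefficient of `P`. -/
def Exceptional (n d : ℕ) {g : ℕ} {J : Fin n → Type} (v : ∀ j, ℂ → J j → ℂ) (F : Type) [Field F] [NumberField F]
    (ι : F →+* ℂ) (ξ : Fin g → ℂ) (K : Set ℂ) (A B T : ℝ) : Set (Fin n → F) :=
  {x | (∀ j, x j ∈ Points F ι K T) ∧ ∃ P : MvPolynomial (Σ j, J j) ℂ, (∀ y, P.degreeOf y ≤ d) ∧
    (∀ s, ∃ c : Fin g → 𝓞 F, (∀ i (φ : F →+* ℂ), ‖φ (c i)‖ ≤ T ^ A) ∧ P.coeff s = ∑ i, ξ i * ι (c i)) ∧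
    ∃ s₀, P.coeff s₀ ≠ 0 ∧
      ‖MvPolynomial.aeval (fun y : Σ j, J j => v y.1 (ι (x y.1)) y.2) P‖ ≤ T ^ (-B) * ‖P.coeff s₀‖}

/-- For `n` curves in `n` groups (equal or different) one can choose, for each `j`, `s_j + 2 r_j` different functions
`e_j` among the `2 s_j + 3 r_j` functions of the `j`-th curve, at least `s_j + r_j` of them among the components `l_k`,
`exp(l_k)`, `u_i`, `℘(u_i)`, such that for every compact set `K` contained in all `U_j`, and all `m`, `g`, `d`, `A` and
`ε > 0` there are `B`, `C`, `T₀` such that for every number field `F` of degree at most `m`, every embedding of `F` in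
`ℂ`, all complex numbers `ξ_1, …, ξ_g` and all `T ≥ T₀` the number of `n`-tuples which are exceptional for the chosen
functions is at most `C T^ε N^(n - 1)`, where `N` is the number of points. -/
theorem result {n : ℕ} {q r s : Fin n → ℕ} (U : Fin n → Set ℂ) (Λ : ∀ j, Fin (q j) → PeriodPair)
    (ty : ∀ j, Fin (r j) → Fin (q j)) (u : ∀ j, Fin (r j) → ℂ → ℂ) (l : ∀ j, Fin (s j) → ℂ → ℂ)
    (hU : ∀ j, Curve (U j) (Λ j) (ty j) (u j) (l j)) :
    ∃ e : ∀ j, Fin (s j + r j) ⊕ Fin (r j) → Name (r j) (s j), (∀ j, Function.Injective (e j)) ∧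
      (∀ j k i, e j (Sum.inl k) ≠ Name.zeta i) ∧
      ∀ K : Set ℂ, IsCompact K → (∀ j, K ⊆ U j) → ∀ (m g d : ℕ) (A ε : ℝ), 0 < ε →
        ∃ B C T₀ : ℝ, ∀ (F : Type) [Field F] [NumberField F], Module.finrank ℚ F ≤ m → ∀ (ι : F →+* ℂ)
          (ξ : Fin g → ℂ) (T : ℝ), T₀ ≤ T →
          (Exceptional n d (fun j z k => value (Λ j) (ty j) (u j) (l j) z (e j k)) F ι ξ K A B T).Finite ∧
            ((Exceptional n d (fun j z k => value (Λ j) (ty j) (u j) (l j) z (e j k)) F ι ξ K A B T).ncard : ℝ) ≤
              C * T ^ ε * ((Points F ι K T).ncard : ℝ) ^ (n - 1) := by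
  classical
  have hF : ∀ j, Y776.Cv.FxM (U j) (Λ j) (ty j) (u j) (l j) := fun j =>
    ⟨(hU j).isOpen, (hU j).isPreconnected, (hU j).nonisogenous, (hU j).analytic_u, (hU j).u_notMem,
      (hU j).independent_u, (hU j).analytic_l, (hU j).independent_l⟩
  choose e he hel hL using fun j => Y776.Cv.fix_sub2 (hF j) (hU j).pos (hU j).nonempty
  let nm : ∀ j, Y776.Cv.Nf (r j) (s j) → Name (r j) (s j) := fun j =>
    Sum.elim Name.l (Sum.elim Name.expl (Sum.elim Name.u (Sum.elim Name.zeta Name.wp)))
  have hnm : ∀ j, Function.Injective (nm j) := by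
    rintro j (a | a | a | a | a) (b | b | b | b | b) hab <;> simp_all [nm]
  have hv : ∀ j z i, value (Λ j) (ty j) (u j) (l j) z (nm j i) = Y776.Cv.yf (Λ j) (ty j) (u j) (l j) i z := by
    rintro j z (a | a | a | a | a) <;> rfl
  refine ⟨fun j k => nm j (e j k), fun j => (hnm j).comp (he j), ?_, ?_⟩
  · intro j k i hk
    have h1 := hel j k
    change nm j (e j (Sum.inl k)) = nm j (Sum.inr (Sum.inr (Sum.inr (Sum.inl i)))) at hk
    rw [hnm j hk] at h1
    exact h1
  intro K hK hKU m g d A ε hε
  obtain ⟨B, C, T₀, hC, hT₀, H⟩ := Y776.Cv.nf_genS (η := Fin g) m n d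
    (fun j => (hU j).isOpen) (fun j => (hU j).isPreconnected)
    (y := fun j k => Y776.Cv.yf (Λ j) (ty j) (u j) (l j) (e j k))
    (fun j k => Y776.Cv.yf_an (hF j) (e j k)) (fun j => hL j) hK hKU A ε hε
  refine ⟨B, C, T₀, fun F _ _ hm ι ξ T hT => ?_⟩
  have hT0 : 0 ≤ T := by linarith
  have hP : Points F ι K T = {x : F | Y120.HtLe F T x ∧ ι x ∈ K} := by
    ext x
    constructor
    · rintro ⟨h1, a, b, hb, hab, hx⟩
      exact ⟨⟨a, b, hb, Y120.house_le F hT0 fun φ => (hab φ).1, Y120.house_le F hT0 fun φ => (hab φ).2, hx⟩, h1⟩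
    · rintro ⟨⟨a, b, hb, ha, hb', hx⟩, h1⟩
      exact ⟨h1, a, b, hb, fun φ => ⟨(Y120.house_ge F _ φ).trans ha, (Y120.house_ge F _ φ).trans hb'⟩, hx⟩
  have key := H F hm ι ξ T hT
    (Exceptional n d (fun j z k => value (Λ j) (ty j) (u j) (l j) z (nm j (e j k))) F ι ξ K A B T) (by
    rintro x ⟨hx, P, hPd, hPc, s₀, hs₀, hs⟩
    refine ⟨fun j => ?_, P, hPd, hPc, s₀, hs₀, ?_⟩
    · have h1 := hx j
      rw [hP] at h1
      exact h1
    · simp only [hv] at hs
      exact hs)
  rw [hP]
  exact key

end Pool.Agent.Results.MP_4aec10_nt.AnalyticCurves
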