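import Mathlib
import Pool.Agent.Y918.GB.Sch

/-!
# The relative conjecture in bounded degree for random points of tori

Let `G = 𝔾ₘ ^ n`, so `Ω_G = {2πi}` (up to rational multiples), `Lie G_ℂ = ℂ ^ n` and
`exp_G r = (e ^ (r 1), …, e ^ (r n))`.  The conjecture says that
`tr.deg_F F(r, exp_G r) ≥ d (exp_G r)`, where `F` is the algebraic closure of `ℚ(2πi)` and
`d (exp_G r)` is the dimension of the smallest translate over `ℚ̄` of a subgroup which contains
`exp_G r`; so `d (exp_G r) = n` in general.

For every `j` let `x_{j,1}, …, x_{j,k}` be arbitrary complex numbers which are linearly independent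
over `ℚ`, and let `ζ_j` be arbitrary.  We consider the random points `r = (r_1, …, r_n)` with

  `r_j = ζ_j + ∑_i a_{j,i} x_{j,i}`,  `a_{j,i} ∈ A`,

where `A` is a finite set of rational numbers.  For all `n`, `D` and `N` there are `k₀`, `C` and
`δ > 0` such that for all `k ≥ k₀` and all `x` one can choose for every `j` one of the numbers `r_j`,
`e ^ (r_j)`, such that for every `A`, every `ζ` and every `ℚ̄`-space `W` of dimension at most `N` (for
instance the space of the polynomials in `π` of degree less than `N`, which is contained in `F`) the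
`n` chosen numbers satisfy no nonzero polynomial relation with coefficients in `W` of degree at most
`D` in each variable, for all but `C |A|^(n k - δ k)` of the `|A|^(n k)` points `r`.

The proof.  The indices are divided into windows of length `M`.  If the numbers `x_{j,i}` of a window
generate a `ℚ̄`-space of dimension at least `M / 2`, then random sums over the window avoid small
spaces.  Otherwise Baker's theorem shows that the sums over the window which are logarithms of
algebraic numbers form a rational space of dimension less than `M / 2`, so that the exponentials of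
random sums are transcendental.  One of the cases occurs for many windows.  By the cube theorem in
additive and multiplicative variables (`Pool.Agent.Y918.GB.mcubeE`) the parameters of the exceptional
numbers contain no nondegenerate grid, and an iterated Cauchy-Schwarz inequality shows that they are
exponentially rare (`Pool.Agent.Y918.GB.block`).
-/

set_option autoImplicit false

namespace Pool.Agent.Results.MP_4aec10_nt.RandomPoints

/-- The numbers `y_i` satisfy a nonzero polynomial relation with coefficients in `W`, of degree at
most `D` in each of them. -/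
def Related (W : Submodule (algebraicClosure ℚ ℂ) ℂ) (D : ℕ) {m : ℕ} (y : Fin m → ℂ) : Prop :=
  ∃ p : MvPolynomial (Fin m) ℂ, p ≠ 0 ∧ (∀ M, p.coeff M ∈ W) ∧ (∀ i, p.degreeOf i ≤ D) ∧
    MvPolynomial.eval y p = 0

/-- The coordinates `r_j` of the point of the Lie algebra with the parameters `a`. -/
noncomputable def point {n k : ℕ} (ζ : Fin n → ℂ) (x : Fin n → Fin k → ℂ) (a : Fin n → Fin k → ℚ)
    (j : Fin n) : ℂ := ζ j + ∑ i : Fin k, (a j i : ℂ) * x j i

open Classical in
/-- **Main result.** -/
theorem result (n D N : ℕ) : ∃ (k₀ C : ℕ) (δ : ℝ), 0 < δ ∧ ∀ k ≥ k₀, ∀ x : Fin n → Fin k → ℂ,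
    (∀ j, LinearIndependent ℚ (x j)) → ∃ c : Fin n → Bool, ∀ A : Finset ℚ, A.Nonempty →
    ∀ W : Submodule (algebraicClosure ℚ ℂ) ℂ, Module.Finite (algebraicClosure ℚ ℂ) W →
    Module.finrank (algebraicClosure ℚ ℂ) W ≤ N → ∀ ζ : Fin n → ℂ,
    (((Fintype.piFinset fun _ : Fin n => Fintype.piFinset fun _ : Fin k => A).filter
      (fun a : Fin n → Fin k → ℚ => Related W D (fun j =>
        if c j = true then point ζ x a j else Complex.exp (point ζ x a j)))).card : ℝ) ≤
      C * (A.card : ℝ) ^ ((n * k : ℝ) - δ * k) := by
  obtain ⟨k₀, C, δ, hδ, h⟩ := Pool.Agent.Y918.GB.sch n D N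
  refine ⟨k₀, C, δ, hδ, fun k hk x hx => ?_⟩
  obtain ⟨c, hc⟩ := h k hk x hx
  refine ⟨c, fun A hA W hW hWN ζ => ?_⟩
  refine le_trans ?_ (hc A hA W hW hWN ζ)
  apply Nat.cast_le.2
  apply Finset.card_le_card
  intro a ha
  rw [Finset.mem_filter] at ha ⊢
  refine ⟨ha.1, ?_⟩
  have h1 : (fun j => bif c j then ζ j + ∑ i, (a j i : ℂ) * x j i else
      Complex.exp (ζ j + ∑ i, (a j i : ℂ) * x j i)) =
      (fun j => if c j = true then point ζ x a j else Complex.exp (point ζ x a j)) := by
    funext j
    cases c j <;> rfl
  rw [h1]
  exact ha.2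

end Pool.Agent.Results.MP_4aec10_nt.RandomPoints
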