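import Pool.Agent.Y916.Sch.EllT

/-!
# Translates of every point of the Lie algebra of `(E × G_m)^n` by logarithms of algebraic points

Let `E` be the elliptic curve `y² = 4 x³ - g₂ x - g₃` with rational `g₂`, `g₃`, let `Λ` be its lattice, and let
`G = (E × G_m)^n`. Let `r₀ = (z, s)` be any point of `Lie G_ℂ = ℂⁿ × ℂⁿ`. We translate `r₀` by the logarithms of algebraic
points `P = ((α_i, β_i), α_i)_i` of `G`: `r = (u, t)` with `u_i = z_i + p_i`, `℘(p_i) = α_i` and `t_i = s_i + l_i`,
`exp(l_i) = α_i`. (Since `P` is algebraic, the dimension `d(exp_G(r))` of the smallest translate over `ℚ̄` of an algebraic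
subgroup which contains `exp_G(r)` is the same for all these `r`.)

The theorem: for all tuples `α` of algebraic integers of degree at most `m`, but a proportion `C T^(-c)`, and all `r` as
above every polynomial relation of bounded degree, over number fields of bounded degree and of any height, between
arbitrary constants `w_1, ..., w_q` (for instance the periods `ω₁, ω₂, η₁, η₂, 2 π i` of `G`), the components `u_i`, `t_i` of
`r`, the numbers `ζ(u_i)` and the components `℘(u_i)`, `℘'(u_i)`, `exp(t_i)` of `exp_G(r)` is an identity in the numbers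
`u_i`, `ζ(u_i)`, `t_i`. In bounded degree the transcendence degree of the components of `r` and `exp_G(r)` over the field
of periods is thus at least `dim G`, and the transcendence degree over `F(exp_G(r))` is `2 n`. The numbers `c`, `C` do not
depend on `r₀` and `w`.

The proof uses the theorem on elliptic logarithms and logarithms of almost all tuples of algebraic integers
(`MP_c9768e_nt.BoundedDegreeTuples`; parts by helper333, helper71, helper261, helper419, helper113, helper787, helper708,
helper921), where the constants are arbitrary, and the addition theorem (in a starting file, `Pool.Agent.H667R3.W5`).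
-/

set_option autoImplicit false

open scoped PeriodPair

namespace Pool.Agent.Results.MP_4aec10_nt.SemiabelianTranslates

/-- The Weierstrass zeta function `ζ(z) = ∑ (1/(z-l) + 1/l + z/l²)`, the sum over the lattice (the summand of `l = 0` is
`1/z`, since `1/0 = 0` in Lean). -/
noncomputable def zeta (Λ : PeriodPair) (z : ℂ) : ℂ := ∑' l : Λ.lattice, (1 / (z - l) + 1 / l + z / l ^ 2)

/-- The algebraic integers of degree at most `m` all of whose conjugates have absolute value at most `T`. -/
def integers (m T : ℕ) : Set ℂ :=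
  {α | IsIntegral ℤ α ∧ (minpoly ℚ α).natDegree ≤ m ∧ ∀ z : ℂ, Polynomial.aeval z (minpoly ℚ α) = 0 → ‖z‖ ≤ T}

/-- The components `u_i`, `t_i` of a point of the Lie algebra of `(E × G_m)^n`, and the numbers `ζ(u_i)`. -/
noncomputable def components (Λ : PeriodPair) {n : ℕ} (u t : Fin n → ℂ) : Fin n × Fin 3 → ℂ :=
  fun a => ![u a.1, zeta Λ (u a.1), t a.1] a.2

/-- The components of its image `exp_G(u, t)` in `(E × G_m)^n`. -/
noncomputable def image (Λ : PeriodPair) {n : ℕ} (u t : Fin n → ℂ) : Fin n × Fin 3 → ℂ :=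
  fun a => ![℘[Λ] (u a.1), ℘'[Λ] (u a.1), Complex.exp (t a.1)] a.2

/-- Every polynomial relation of degree `≤ δ` over a number field of degree `≤ d` between the constants `w`, the
`components` and the `image` of `(u, t)` is an identity in the components. -/
def FreeOverImage (Λ : PeriodPair) (δ d : ℕ) {q n : ℕ} (w : Fin q → ℂ) (u t : Fin n → ℂ) : Prop :=
  ∀ L : IntermediateField ℚ ℂ, FiniteDimensional ℚ L → Module.finrank ℚ L ≤ d →
  ∀ P : MvPolynomial (Fin q ⊕ ((Fin n × Fin 3) ⊕ (Fin n × Fin 3))) L, P.totalDegree ≤ δ →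
  MvPolynomial.aeval (Sum.elim w (Sum.elim (components Λ u t) (image Λ u t))) P = 0 →
  ∀ y : Fin n × Fin 3 → ℂ, MvPolynomial.aeval (Sum.elim w (Sum.elim y (image Λ u t))) P = 0

/-- The point `(u, t)` is the sum of `(z, s)` and a logarithm `(p, l)` of the point `((α_i, ±β_i), α_i)` of
`(E × G_m)^n`; no `u_i` is in the lattice. -/
def IsTranslate (Λ : PeriodPair) {n : ℕ} (z s α u t : Fin n → ℂ) : Prop :=
  ∀ i, u i ∉ Λ.lattice ∧ u i - z i ∉ Λ.lattice ∧ ℘[Λ] (u i - z i) = α i ∧ Complex.exp (t i - s i) = α i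

/-- Let `Λ` be a lattice with rational invariants and `m ≥ 1`. For all `n`, `q`, `δ`, `d` there are `c > 0` and `C` such
that for all `z`, `s` in `ℂⁿ`, all complex `w_1, ..., w_q` and all `T ≥ 1`, for all but at most a proportion `C T^(-c)` of
the `n`-tuples `α` of algebraic integers of degree at most `m` with conjugates at most `T`, all translates of `(z, s)` by
logarithms of the points `((α_i, β_i), α_i)` are free over their image and `w`. -/
theorem result (Λ : PeriodPair) (a b : ℚ) (ha : Λ.g₂ = a) (hb : Λ.g₃ = b) (n q m : ℕ) (hm : 1 ≤ m) (δ d : ℕ) :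
    ∃ c : ℝ, 0 < c ∧ ∃ C : ℝ, ∀ (w : Fin q → ℂ) (z s : Fin n → ℂ) (T : ℕ), 1 ≤ T →
      (integers m T).Finite ∧
      ({α : Fin n → ℂ | (∀ i, α i ∈ integers m T) ∧
        ¬ ∀ u t : Fin n → ℂ, IsTranslate Λ z s α u t → FreeOverImage Λ δ d w u t}.ncard : ℝ) ≤
        C * (T : ℝ) ^ (-c) * ((integers m T).ncard : ℝ) ^ n := by
  obtain ⟨c₁, hc₁, h₁⟩ := Pool.Agent.Y916.Sl.many m hm
  obtain ⟨c₂, hc₂, C₂, hC₂, h₂⟩ := Pool.Agent.Y916.Sch.tupE Λ a b ha hb n q m δ d hm
  refine ⟨c₂, hc₂, C₂ / c₁ ^ n, fun w z s T hT => ⟨Pool.Agent.Y916.Sl.sint_fin m T, ?_⟩⟩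
  obtain ⟨hf, hle⟩ := h₂ w z s T hT
  refine le_trans ?_ (hle.trans (Pool.Agent.Y916.Sl.prop_bound hc₁ hC₂ hT (h₁ T hT)))
  refine Nat.cast_le.2 (Set.ncard_le_ncard ?_ hf)
  rintro α ⟨hα1, hα2⟩
  refine ⟨fun i => Pool.Agent.Y916.Sl.SInt.aint (hα1 i), ?_⟩
  simp only [not_forall] at hα2
  obtain ⟨u, t, hu, hF⟩ := hα2
  exact ⟨u, t, fun i => (hu i).1, fun i => (hu i).2.1, fun i => (hu i).2.2.1, fun i => (hu i).2.2.2, hF⟩

end Pool.Agent.Results.MP_4aec10_nt.SemiabelianTranslates
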