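import Pool.Agent.Y916.Sch.EllW

/-!
# Translates of every point of the Lie algebra of `(E × G_m)^n` by logarithms of the algebraic points in a window

Let `E` be the elliptic curve `y² = 4 x³ - g₂ x - g₃` with rational `g₂`, `g₃`, let `Λ` be its lattice, `G = (E × G_m)^n`,
and let `r₀ = (z, s)` be any point of `Lie G_ℂ = ℂⁿ × ℂⁿ`. We consider the algebraic points `P = ((α_i, β_i), α_i)_i` of `G`
with `α_i = ξ + g_i`, `1 ≤ g_i ≤ H`, in a window around an arbitrary algebraic number `ξ` of degree at most `m`, of height at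
most `|ξ|^A` and of absolute value at least `(H + 2)^E`, and all `r = (u, t)` in `r₀ + log_G(P)`. Except for at most
`7 n + q + 4 + ρ` of the integers `g`, `ρ` the transcendence degree of the field of periods, every polynomial relation of
bounded degree over number fields of bounded degree, of any height, between the periods of `G`, arbitrary constants
`w_1, ..., w_q`, the components `u_i`, `t_i` of `r`, the numbers `ζ(u_i)` and the components `℘(u_i)`, `℘'(u_i)`,
`exp(t_i)` of `exp_G(r)` is an identity in the numbers `u_i`, `ζ(u_i)`, `t_i`. The number `E` does not depend on `r₀` and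
`w`.

The proof uses the theorem on elliptic logarithms and logarithms in windows (`MP_c9768e_nt.AlgebraicWindows`; parts by
helper333, helper71, helper261, helper419, helper113, helper787, helper708, helper921) and the addition theorem (in a
starting file, `Pool.Agent.H667R3.W5`).
-/

set_option autoImplicit false

open scoped PeriodPair

namespace Pool.Agent.Results.MP_4aec10_nt.TranslatesInWindows

/-- The Weierstrass zeta function `ζ(z) = ∑ (1/(z-l) + 1/l + z/l²)`, the sum over the lattice (the summand of `l = 0` is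
`1/z`, since `1/0 = 0` in Lean). -/
noncomputable def zeta (Λ : PeriodPair) (z : ℂ) : ℂ := ∑' l : Λ.lattice, (1 / (z - l) + 1 / l + z / l ^ 2)

/-- The periods `ω₁`, `ω₂`, the half quasi-periods `ζ(ω₁/2)`, `ζ(ω₂/2)`, and `2πi`. -/
noncomputable def periods (Λ : PeriodPair) : Fin 5 → ℂ :=
  ![Λ.ω₁, Λ.ω₂, zeta Λ (Λ.ω₁ / 2), zeta Λ (Λ.ω₂ / 2), 2 * Real.pi * Complex.I]

/-- The components `u_i`, `t_i` of a point of the Lie algebra of `(E × G_m)^n`, and the numbers `ζ(u_i)`. -/
noncomputable def components (Λ : PeriodPair) {n : ℕ} (u t : Fin n → ℂ) : Fin n × Fin 3 → ℂ :=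
  fun a => ![u a.1, zeta Λ (u a.1), t a.1] a.2

/-- The components of its image `exp_G(u, t)` in `(E × G_m)^n`. -/
noncomputable def image (Λ : PeriodPair) {n : ℕ} (u t : Fin n → ℂ) : Fin n × Fin 3 → ℂ :=
  fun a => ![℘[Λ] (u a.1), ℘'[Λ] (u a.1), Complex.exp (t a.1)] a.2

/-- Every polynomial relation of degree `≤ δ` over a number field of degree `≤ d` between the constants `w`, the
`components` and the `image` of `(u, t)` is an identity in the components. -/
def FreeOverImage (Λ : PeriodPair) (δ d : ℕ) {υ : Type} {n : ℕ} (w : υ → ℂ) (u t : Fin n → ℂ) : Prop :=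
  ∀ L : IntermediateField ℚ ℂ, FiniteDimensional ℚ L → Module.finrank ℚ L ≤ d →
  ∀ P : MvPolynomial (υ ⊕ ((Fin n × Fin 3) ⊕ (Fin n × Fin 3))) L, P.totalDegree ≤ δ →
  MvPolynomial.aeval (Sum.elim w (Sum.elim (components Λ u t) (image Λ u t))) P = 0 →
  ∀ y : Fin n × Fin 3 → ℂ, MvPolynomial.aeval (Sum.elim w (Sum.elim y (image Λ u t))) P = 0

/-- The point `(u, t)` is the sum of `(z, s)` and a logarithm `(p, l)` of the point `((α_i, ±β_i), α_i)` of
`(E × G_m)^n`; no `u_i` is in the lattice. -/
def IsTranslate (Λ : PeriodPair) {n : ℕ} (z s α u t : Fin n → ℂ) : Prop :=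
  ∀ i, u i ∉ Λ.lattice ∧ u i - z i ∉ Λ.lattice ∧ ℘[Λ] (u i - z i) = α i ∧ Complex.exp (t i - s i) = α i

/-- Let `Λ` be a lattice with rational invariants. For all `n`, `q`, `m`, `A`, `δ`, `d` there is `E` such that for all `H`,
all complex numbers `ξ` with `|ξ| ≥ (H + 2)^E` which are roots of a nonzero integral polynomial of degree at most `m` with
coefficients at most `|ξ|^A`, all `w_1, ..., w_q` and all points `(z, s)` there is a set `S` of at most `7 n + q + 4 + ρ`
integers, `ρ` the transcendence degree of the field generated by the `periods`, such that for all distinct integers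
`g_1, ..., g_n` in `[1, H]` outside `S` all translates of `(z, s)` by logarithms of the points `((ξ + g_i, β_i), ξ + g_i)`
are free over their image, `w` and the periods. -/
theorem result (Λ : PeriodPair) (a b : ℚ) (ha : Λ.g₂ = a) (hb : Λ.g₃ = b) (n q m A δ d : ℕ) :
    ∃ E : ℕ, ∀ (H : ℕ) (ξ : ℂ), ((H : ℝ) + 2) ^ E ≤ ‖ξ‖ →
      (∃ p : Polynomial ℤ, p ≠ 0 ∧ p.natDegree ≤ m ∧ (∀ j, |(p.coeff j : ℝ)| ≤ ‖ξ‖ ^ A) ∧
        Polynomial.aeval ξ p = 0) →
      ∀ (w : Fin q → ℂ) (z s : Fin n → ℂ), ∃ S : Finset ℕ,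
      (S.card : Cardinal) ≤ ((7 * n + q + 4 : ℕ) : Cardinal) +
        Algebra.trdeg ℚ (IntermediateField.adjoin ℚ (Set.range (periods Λ))) ∧
      ∀ g : Fin n → ℕ, Function.Injective g → (∀ i, 1 ≤ g i ∧ g i ≤ H ∧ g i ∉ S) →
      ∀ u t : Fin n → ℂ, IsTranslate Λ z s (fun i => ξ + g i) u t →
      FreeOverImage Λ δ d (Sum.elim w (periods Λ)) u t := by
  obtain ⟨E, hE⟩ := Pool.Agent.Y916.Sch.winE Λ a b ha hb n q m A δ d
  refine ⟨E, fun H ξ hξ hp w z s => ?_⟩
  obtain ⟨S, hS, h⟩ := hE H ξ hξ hp w z s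
  refine ⟨S, hS, fun g hinj hg u t hu => ?_⟩
  by_contra hF
  exact h g hinj hg ⟨u, t, fun i => (hu i).1, fun i => (hu i).2.1, fun i => (hu i).2.2.1, fun i => (hu i).2.2.2, hF⟩

end Pool.Agent.Results.MP_4aec10_nt.TranslatesInWindows
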